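import Pool.Agent.Helper13.CZ.Tate

/-!
# Tate's conjecture for divisors over finite fields and configurations of points in the plane

Let `p` be a prime number and `A` an algebra of finite type over the field `𝔽_p`. A point `x` of `Spec A`
has dimension `e` if its residue field `κ(x)` has transcendence degree `e` over `𝔽_p` (`Pt`). For a point
`x` of dimension `e + 1`, a point `y` of dimension `e` in the closure of `x`, and an element `a` of `A` that
does not vanish at `x` let `ord_y(a)` be the length of `A_y/(x, a)`; then `ord_y(a/b) = ord_y(a) - ord_y(b)`
is well defined (`ordF`), and one has the divisor map (`divMap`)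

`div : ⨁_{dim x = e + 1} κ(x)^× ⟶ ⨁_{dim y = e} ℤ`,   `f ↦ ∑_y ord_y(f) y`.

For instance, if `A` is a normal domain of dimension `e + 1` then the kernel of `div` is the group of units of
`A`, and its cokernel is the divisor class group of `A` (the Picard group, if `A` is smooth). The zeta
function of `A` is `Z(A, T) = exp (∑_n N_n Tⁿ / n)`, where `N_n` is the number of homomorphisms of `A` to the
field with `pⁿ` elements (`zeta`). Tate's conjecture for divisors in the form with zeta functions
[Tate 1965] says that the order of the zeta function of a regular scheme `X` of dimension `e + 1` at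
`s = e`, that is, at `T = p^(-e)`, is the rank of the group of units minus the rank of the Picard group. We
say that `TateOrder p e A` is true if the kernel and the cokernel of `div` are finitely generated and
`Z(A, T)` is a rational function whose order at `T = p^(-e)` is the rank of the kernel of `div` minus the
rank of its cokernel (the index of `div`), where `dim A ≤ e + 1`. Finite generation and rationality are known
theorems, but nothing is assumed here. For the algebras `A` with `dim A ≤ e` this is known: it says that
`Z(A, T)` has a pole at `T = p^(-e)` whose order is the number of the irreducible components of dimension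
`e` (Lang and Weil). For surfaces (`e = 1`) the statement is equivalent to the conjecture of Tate for
divisors on all smooth projective surfaces over the finite fields of characteristic `p` (Tate), that is, to
the finiteness of their Brauer groups, and this implies the Tate conjecture for divisors on all
smooth projective varieties over these fields.

A matroid `M` of rank three on the set `Fin 4 ⊕ Fin n` is framed if any three of the four elements of
`Fin 4` form a base; it is simple if any two elements are independent. `ModR 𝔽_p M` is the ring of functions
on the moduli space over `𝔽_p` of the configurations of `n + 4` different points in the projective plane in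
which exactly the triples prescribed by `M` are collinear, modulo projective transformations. In
coordinates: the first four points are the points of `e_1, e_2, e_3, e_1 + e_2 + e_3`, and the other ones
have normalised coordinates `(x, y, 1)` or `(x, 1, 0)`; three vectors have an invertible
determinant if they are a base of `M`, and the determinant zero otherwise. `SmoothMod 𝔽_p d M` says that
`M` is framed and simple and that `ModR 𝔽_p M` is a smooth domain of dimension at most `d`.

**Theorem.** Let `e` be a natural number.

(1) For each domain `A` of finite type over `𝔽_p` with `dim A ≤ e + 1` there is such a matroid `M` with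
`SmoothMod 𝔽_p (dim A) M` such that `A` and `ModR 𝔽_p M` have isomorphic localizations `A_a = (ModR 𝔽_p M)_c`,
`a, c ≠ 0` (so that they are birational), and such that `TateOrder p e A` and
`TateOrder p e (ModR 𝔽_p M)` are equivalent, if `TateOrder p e` is true for the algebras of dimension at
most `e` (which is known, see above).

(2) For each algebra `A` of finite type over `𝔽_p` there is a finite list `L` of such matroids with
`SmoothMod 𝔽_p (dim A) M` for `M` in `L`, such that `TateOrder p e A` is true if
`TateOrder p e (ModR 𝔽_p M)` is true for the finitely many `M` in `L`.

(3) The following are equivalent.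

* `TateOrder p e A` is true for all algebras `A` of finite type over `𝔽_p` with `dim A ≤ e + 1`.
* `TateOrder p e A` is true for all smooth domains `A` over `𝔽_p` with `dim A ≤ e + 1`.
* `TateOrder p e (ModR 𝔽_p M)` is true for all `M` with `SmoothMod 𝔽_p (e + 1) M`.

So the Tate conjecture for divisors over finite fields, and the finiteness of the Brauer groups of surfaces
over finite fields, is a statement on the numbers of the realizations of the simple matroids of rank three over
the fields with `pⁿ` elements, in the cases in which the space of realizations is a smooth surface.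

Everything is defined above, and nothing is assumed. Proof: the sequences of two-term complexes of `A/w`,
`A` and `A_w` are exact, so that the index of `div` is additive, and so is the order of the zeta function
(`Pool.Agent.Helper13.CZ`). Every domain `A` of finite type over `𝔽_p` has a localization `A_a`, `a ≠ 0`, which is
also a localization of a ring `ModR 𝔽_p M` (`Pool.Agent.Helper13.RM`; a version of the universality theorem of
Mnëv in which `Spec A_a` itself is an open subscheme of the moduli space). Then noetherian induction and
induction on the dimension, for arbitrary properties with two out of three (`PTri`).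
-/

set_option autoImplicit false

open Pool.Agent.Y116.UV Pool.Agent.Q282.UK Pool.Agent.Helper13.RM Pool.Agent.Helper13.CZ
  Pool.Agent.Helper3.GU

namespace Pool.Agent.Results.MP_0fca13_ag.DivisorsOnModuli

section

variable (p : ℕ) [Fact p.Prime]

/-- The ring of functions on the moduli space over `𝔽_p` of the configurations given by `M`. -/
def MR (M : Mat) : Type := ModR (ZMod p) M.2

noncomputable instance (M : Mat) : CommRing (MR p M) :=
  (inferInstance : CommRing (ModR (ZMod p) M.2))

noncomputable instance (M : Mat) : Algebra (ZMod p) (MR p M) :=
  (inferInstance : Algebra (ZMod p) (ModR (ZMod p) M.2))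

instance (M : Mat) : Algebra.FiniteType (ZMod p) (MR p M) :=
  ft_loc (R := ZMod p) _ _

/-- `TateOrder p e A` for all algebras `A` of finite type over `𝔽_p` with `dim A ≤ d`. -/
def AllTate (e d : ℕ) : Prop :=
  ∀ (A : Type) [CommRing A] [Algebra (ZMod p) A] [Algebra.FiniteType (ZMod p) A],
    ringKrullDim A ≤ d → TateOrder p e A

/-- `TateOrder p e A` for all smooth domains `A` over `𝔽_p` with `dim A ≤ d`. -/
def SmoothTate (e d : ℕ) : Prop :=
  ∀ (A : Type) [CommRing A] [IsDomain A] [Algebra (ZMod p) A] [Algebra.FiniteType (ZMod p) A],
    Algebra.Smooth (ZMod p) A → ringKrullDim A ≤ d → TateOrder p e A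

/-- `TateOrder p e (ModR 𝔽_p M)` for all `M` with `SmoothMod 𝔽_p d M`. -/
def ModuliTate (e d : ℕ) : Prop := ∀ M : Mat, SmoothMod (ZMod p) d M.2 → TateOrder p e (MR p M)

/-- `A` and `ModR 𝔽_p M` have isomorphic localizations. -/
def Birational (A : Type) [CommRing A] [Algebra (ZMod p) A] (M : Mat) : Prop :=
  ∃ (a : A) (c : MR p M), a ≠ 0 ∧ c ≠ 0 ∧
    Nonempty (Localization.Away a ≃ₐ[ZMod p] Localization.Away c)

/-- One moduli space for each domain. -/
def OneModuli (e : ℕ) : Prop :=
  ∀ (A : Type) [CommRing A] [IsDomain A] [Algebra (ZMod p) A] [Algebra.FiniteType (ZMod p) A],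
    ringKrullDim A ≤ (e + 1 : ℕ) →
      ∃ M : Mat, SmoothMod (ZMod p) (ringKrullDim A) M.2 ∧ Birational p A M ∧
        (AllTate p e e → (TateOrder p e A ↔ TateOrder p e (MR p M)))

/-- Finitely many moduli spaces for each algebra. -/
def FinitelyMany (e : ℕ) : Prop :=
  ∀ (A : Type) [CommRing A] [Algebra (ZMod p) A] [Algebra.FiniteType (ZMod p) A],
    ∃ L : List Mat, (∀ M ∈ L, SmoothMod (ZMod p) (ringKrullDim A) M.2) ∧
      ((∀ M ∈ L, TateOrder p e (MR p M)) → TateOrder p e A)

end

lemma presents_zmod (p : ℕ) [Fact p.Prime] : Presents ({0, 1} : Set (ZMod p)) :=
  presents_zero_one (R := ZMod p) fun x => ZMod.intCast_surjective x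

/-- **Tate's conjecture for divisors over finite fields and moduli spaces of planar point
configurations.** See the explanations above. -/
theorem result (p : ℕ) [Fact p.Prime] (e : ℕ) :
    OneModuli p e ∧ FinitelyMany p e ∧
      List.TFAE [AllTate p e (e + 1), SmoothTate p e (e + 1), ModuliTate p e (e + 1)] := by
  have hR := presents_zmod p
  refine ⟨fun A _ _ _ hA hd => ?_, fun A _ _ hA => ?_, ?_⟩
  · obtain ⟨n, M, hM, ⟨a, c, ha, hc, h⟩, hP⟩ := pointTri hR A
    refine ⟨⟨n, M⟩, hM, ⟨a, c, ha, hc, h⟩, fun h0 => ?_⟩
    have h1 := hP _ (ptri_tate p e) fun C _ _ _ hC _ =>
      h0 C (lt_of_nat_lt_succ (hC.trans_le hd))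
    exact ⟨fun h2 => h1.1 (fun _ => h2) (inferInstanceAs (Algebra.FiniteType (ZMod p) (MR p ⟨n, M⟩))),
      fun h2 => h1.2 (fun _ => h2) inferInstance⟩
  · obtain ⟨L, hL, h⟩ := listTri hR A
    exact ⟨L, hL, fun hM => h _ (ptri_tate p e) (fun M h' _ => hM M h') hA⟩
  · tfae_have 1 → 2 := fun h A _ _ _ _ _ hd => h A hd
    tfae_have 2 → 3 := fun h M hM => by
      have h1 : IsDomain (MR p M) := hM.domain
      have h2 : Algebra.Smooth (ZMod p) (MR p M) := hM.smooth
      exact h (MR p M) h2 (krullDim_modR hM)
    tfae_have 3 → 1 := fun h A _ _ hA hd =>
      modTri_le (ptri_tate p e) hR (e + 1) (fun n M hM _ => h ⟨n, M⟩ hM) A hd hA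
    tfae_finish

end Pool.Agent.Results.MP_0fca13_ag.DivisorsOnModuli
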