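import Pool.Agent.Helper3.GU.One
import Pool.Agent.Helper3.GU.Lst

/-!
# The Tate conjecture and the Feynman graphs with at most three edges at each vertex

Let `k` be a prime field (`ℚ` or the field with `p` elements), and `ℓ` a prime that is invertible in `k`.
For a separated scheme `X` of finite type over `k` let `W(X)` be its weight complex (Gillet, Soulé), a
bounded complex of Chow motives, with `W(X) = h(X)` for smooth projective `X`; the coefficients are `ℤ` for
`k = ℚ` and `ℤ[1/p]` in characteristic `p` (Bondarko, Kelly). Let `A^n(M)` be the image of the group of
cycles of codimension `n` in the `ℓ`-adic cohomology `H^{2n}(M)(n)` of a Chow motive `M`, and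
`T^n(M) = H^{2n}(M)(n)^{Gal(k)}` the space of Tate classes. For `n, i ∈ ℤ` put

* `N^{n,i}(X) = H^i(A^n(W(X)))`, a module over `E' = ℤ` (`k = ℚ`) or `E' = ℤ[1/p]`;
* `A^{n,i}(X) = H^i(A^n(W(X)) ⊗ ℚ_ℓ)`, and `B^{n,i}(X) = H^i(T^n(W(X)))`.

The cycle class gives maps `A^{n,i}(X) → B^{n,i}(X)`. For smooth projective `X` the groups with `i ≠ 0` are
zero, and for `i = 0` this is the group `A^n(X)` and the map `A^n(X) ⊗ ℚ_ℓ → H^{2n}(X)(n)^{Gal(k)}` of the
conjecture of Tate. So `Tate C N X` (all `N^{n,i}(X)` are finitely generated, and all the maps
`A^{n,i}(X) → B^{n,i}(X)` are bijective) is the conjecture of Tate for `X` in all codimensions if `X` is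
smooth and projective. (If one takes `N = 0` then it is the statement that the maps are bijective.)

The standard facts about these groups are hypotheses: `IsWeightPair` and `IsTheory` (long exact sequences of
closed-open pairs, affine bundles, products with `𝔾_m`), `WeightGen` and `FinGenerated` (smooth projective
schemes generate), and the trivial case of the point. They are proved by Gillet and Soulé, and in
characteristic `p` they follow from the alterations of de Jong and Gabber.

For a simple graph `G` with the vertices `0, …, n` let `K_G` be the Kirchhoff polynomial: the determinant of
the Laplacian matrix without the row and the column of the vertex `0`, that is the sum over the spanning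
trees of `G` of the products of the variables of their edges, and let `Ψ_G` be the first Symanzik
polynomial (of Feynman integrals), the sum over the spanning trees of the products of the variables of the
edges that are not in the tree; here it is the determinant of the expanded Laplacian matrix. Let `G` be a
graph with at most three edges at each vertex (`Subcubic`), that is, `G` is obtained by leaving out edges
and subdividing edges of Feynman graphs of the `φ³`-theory.

**Theorem.** (1) For every separated scheme `X` of finite type over `k`, for instance a smooth projective
one, there is a **finite** list `L` of graphs with at most three edges at each vertex which depends only on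
`X`, not on `ℓ` (or on the cohomology theories), such that: if `Tate C N` is true for the complements of the
finitely many graph hypersurfaces `K_G = 0`, `G` in `L`, in the affine spaces, or for these hypersurfaces,
or for their complements in the tori, or for the complements in the tori of the finitely many hypersurfaces
`Ψ_G = 0`, `G` in `L`, then `Tate C N X` is true. Here only the long exact sequences, affine bundles and
products with `𝔾_m` are used.

(2) The following statements are equivalent.

* The conjecture of Tate holds for all smooth projective schemes over `k`, in all codimensions.
* `Tate C N X` is true for all separated schemes `X` of finite type over `k`.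
* It is true for the complements of the graph hypersurfaces `K_G = 0` in the affine spaces, for all graphs
  `G` with at most three edges at each vertex.
* It is true for these graph hypersurfaces `K_G = 0`.
* It is true for their complements in the tori.
* It is true for the complements in the tori of the hypersurfaces `Ψ_G = 0`, that is, for the domains of
  the Feynman integrands of the graphs `G`.

In the background is a theorem on arbitrary properties of schemes over `ℤ` or a prime field
(`Pool.Agent.Helper3.GU.cubic_tfae`): a property of schemes that is closed under closed-open decompositions
(two out of three), that holds for affine spaces, that descends along the affine bundles of Jouanolou and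
from `X × 𝔾_m` to `X`, and passes from `X` to `X × 𝔸¹`, is true for all separated schemes of finite type if
it is true for the complements of the graph hypersurfaces of graphs with at most three edges at each
vertex. Belkale and Brosnan proved that the classes of the graph hypersurfaces of all graphs generate the
Grothendieck ring after inverting all `L^n - L` (`n > 1`), for graphs with vertices of unbounded degree;
that theorem says nothing about properties that are not determined by the class in the Grothendieck ring.

Proof of the theorem on graphs: the condition that a matrix of unknowns with prescribed zero entries is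
symmetric and invertible is encoded by the graph hypersurface of a cone, and a trilinear hypersurface
`T = 1` (universal by the theorem in the library of the starting files) is decomposed along the ranks of
such matrices. The edges of the graphs are contracted with the pattern `G - e`, `G`, and the subdivision of
`e`; this replaces vertices of large degree by paths of vertices of degree three.
-/

set_option autoImplicit false

open AlgebraicGeometry Pool.Agent.Y116.UV Pool.Agent.Z125.UN Pool.Agent.Q193.LT
  Pool.Agent.Helper3.GU

universe v w w1 w2

namespace Pool.Agent.Results.MP_0fca13_ag.GraphHypersurfaces

/-- The conjecture of Tate for the weight complex of `X`, in all degrees: the groups `N^{n,i}(X)` of cycles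
modulo homological equivalence are finitely generated, and the cycle class maps
`A^{n,i}(X) → B^{n,i}(X)` are bijective. -/
def Tate {k : Type} [Field k] {E : Type v} [CommRing E] {E' : Type w1} [CommRing E']
    (C : PairData.{w} k (ℤ × ℤ) E) (N : ℤ × ℤ → Sch k → ModuleCat.{w2} E') (X : Sch k) : Prop :=
  FinGen N X ∧ BijAll C X

/-- `C` and `N` are theories with the standard properties (without the generation by smooth projective
schemes), for which the case of the point is true. -/
structure Standard {k : Type} [Field k] {E : Type v} [CommRing E] {E' : Type w1} [CommRing E']
    (C : PairData.{w} k (ℤ × ℤ) E) (N : ℤ × ℤ → Sch k → ModuleCat.{w2} E') : Prop where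
  pair : IsWeightPair C
  theory : IsTheory N shiftI shiftN shiftI
  point : Tate C N (aff k k)

/-- **The Tate conjecture and graph hypersurfaces.** See the explanations above. `Frac k` says that every
element of `k` is a quotient of integers. -/
theorem result {k : Type} [Field k] [PerfectField k] (hk : Frac k) :
    (∀ X : Sch k, FT True X → ∃ L : List (Σ n : ℕ, SimpleGraph (Fin (n + 1))),
      (∀ G ∈ L, Subcubic G.2) ∧
        ∀ (E : Type v) [CommRing E] (E' : Type w1) [CommRing E'] [IsNoetherianRing E']
          (C : PairData.{w} k (ℤ × ℤ) E) (N : ℤ × ℤ → Sch k → ModuleCat.{w2} E'),
          Standard C N →
          ((∀ G ∈ L, Tate C N (graphS k G.2)) ∨ (∀ G ∈ L, Tate C N (graphH k G.2)) ∨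
            (∀ G ∈ L, Tate C N (graphT k G.2)) ∨ ∀ G ∈ L, Tate C N (feynmanT k G.2)) →
          Tate C N X) ∧
    ∀ (E : Type v) [CommRing E] (E' : Type w1) [CommRing E'] [IsNoetherianRing E']
      (C : PairData.{w} k (ℤ × ℤ) E) (N : ℤ × ℤ → Sch k → ModuleCat.{w2} E'),
      Standard C N → WeightGen C → FinGenerated N →
      List.TFAE [∀ Y : Sch k, SmoothProj Y → Tate C N Y,
        ∀ X : Sch k, FT True X → Tate C N X,
        ∀ (n : ℕ) (G : SimpleGraph (Fin (n + 1))), Subcubic G → Tate C N (graphS k G),
        ∀ (n : ℕ) (G : SimpleGraph (Fin (n + 1))), Subcubic G → Tate C N (graphH k G),
        ∀ (n : ℕ) (G : SimpleGraph (Fin (n + 1))), Subcubic G → Tate C N (graphT k G),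
        ∀ (n : ℕ) (G : SimpleGraph (Fin (n + 1))), Subcubic G → Tate C N (feynmanT k G)] := by
  constructor
  · intro X hX
    obtain ⟨L, hL, h⟩ := finite_list (sep := True) (presents_frac hk) X hX
    exact ⟨L, hL, fun E _ E' _ _ C N hS => h (Tate C N) (mot_of_bnd (bnd_and
      (bnd_finGen hS.theory hS.point.1) (bnd_pair hS.pair hS.point.2)))⟩
  · intro E _ E' _ _ C N hS gC gN
    exact cubic_fin gC hS.pair hS.point.2 gN hS.theory hS.point.1 hk

end Pool.Agent.Results.MP_0fca13_ag.GraphHypersurfaces
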