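import Pool.Agent.Helper59.IP.Main

/-!
# The Tate conjecture and the partition functions of the lattice gas with hard core interaction

Let `k` be a prime field (`ℚ` or the field with `p` elements), and `ℓ` a prime that is invertible in `k`.
For a separated scheme `X` of finite type over `k` let `W(X)` be its weight complex (Gillet, Soulé), a
bounded complex of Chow motives, with `W(X) = h(X)` for smooth projective `X`; the coefficients are `ℤ` for
`k = ℚ` and `ℤ[1/p]` in characteristic `p` (Bondarko, Kelly). Let `A^n(M)` be the image of the group of
cycles of codimension `n` in the `ℓ`-adic cohomology `H^{2n}(M)(n)` of a Chow motive `M`, and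
`T^n(M) = H^{2n}(M)(n)^{Gal(k)}` the space of Tate classes. For `n, i ∈ ℤ` put

* `N^{n,i}(X) = H^i(A^n(W(X)))`, a module over `E' = ℤ` (`k = ℚ`) or `E' = ℤ[1/p]`;
* `A^{n,i}(X) = H^i(A^n(W(X)) ⊗ ℚ_ℓ)`, and `B^{n,i}(X) = H^i(T^n(W(X)))`.

The cycle class gives maps `A^{n,i}(X) → B^{n,i}(X)`. For smooth projective `X` the groups with `i ≠ 0` are
zero, and for `i = 0` this is the group `A^n(X)` and the map `A^n(X) ⊗ ℚ_ℓ → H^{2n}(X)(n)^{Gal(k)}` of the
conjecture of Tate. So `Tate C N X` (all `N^{n,i}(X)` are finitely generated, and all the maps
`A^{n,i}(X) → B^{n,i}(X)` are bijective) is the conjecture of Tate for `X` in all codimensions if `X` is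
smooth and projective. (If one takes `N = 0` then it is the statement that the maps are bijective.)

The standard facts about these groups are hypotheses, the same as in the reduction to the hypersurfaces of
Feynman graphs (`GraphHypersurfaces`): `IsWeightPair` and `IsTheory` (long exact sequences of closed-open
pairs, affine bundles, products with `𝔾_m`), `WeightGen` and `FinGenerated` (smooth projective schemes
generate), and the trivial case of the point. They are proved by Gillet and Soulé, and in characteristic
`p` they follow from the alterations of de Jong and Gabber.

For a graph `G` with the vertices `V` let `I_G = ∑_s ∏_{v ∈ s} x_v`, the sum over the independent sets `s`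
(sets of pairwise non-adjacent vertices) of `G`: the multivariate independence polynomial. It is the
partition function of the lattice gas on `G` with hard core interaction and activities `x_v`; the zeros are
the subject of the theorems of Lee-Yang type and of the lemma of Lovász (Shearer, Scott and Sokal).
`I_G(-x)` is the polynomial of Möbius of the partially commutative monoid of the complementary graph
(Cartier and Foata), and `1 / I_G(-x)` is its growth series. We consider graphs whose vertices are covered by
three cliques (`ThreeCliques`), so that an independent set has at most three elements and `I_G` is a cubic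
polynomial: the sum of `∏_{v ∈ s} x_v` over all cliques `s` of the 3-colourable complementary graph. (If the
vertices are covered by two cliques then `I_G` is a quadratic polynomial.)

**Theorem.** The following statements are equivalent.

* The conjecture of Tate holds for all smooth projective schemes over `k`, in all codimensions.
* `Tate C N X` is true for all separated schemes `X` of finite type over `k`.
* It is true for the complements in the affine spaces of the hypersurfaces `I_G = 0`, for all graphs `G`
  that are covered by three cliques.
* It is true for these cubic hypersurfaces `I_G = 0`.
* It is true for the complements of these hypersurfaces in the tori (all activities are different from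
  zero).
* It is true for the intersections of the hypersurfaces `I_G = 0` with the tori.

In the background is a theorem on arbitrary properties of schemes over `ℤ` or a prime field
(`Pool.Agent.Helper59.IP.ind_tfae`): a property of schemes that is closed under closed-open decompositions
(two out of three), that holds for affine spaces, that descends along the affine bundles of Jouanolou and
from `X × 𝔾_m` to `X`, and passes from `X` to `X × 𝔸¹`, is true for all separated schemes of finite type if
it is true for the complements of the hypersurfaces `I_G = 0` of the graphs covered by three cliques.

Proof of the theorem on graphs: let `Γ` be covered by two cliques and `A_1, …, A_m` sets of vertices. Add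
to `Γ` a vertex `w` adjacent to `Γ`, a clique of vertices `v_r` adjacent to `w` and to the vertices of `Γ`
outside of `A_r`, and a vertex `u` adjacent to the `v_r`. The graph is covered by three cliques and has the
polynomial `(1 + u)(w + I_Γ) + ∑_r v_r I_{A_r}`. Cutting along `w + I_Γ = 0`, passing from the invertible
values of `∑ v_r I_{A_r}` to the value one, and using Jouanolou's device one arrives at the common zeros of
the polynomials `I_{A_r}` of the induced subgraphs. The relations `(1 + x)(1 + y) + z = 0` (path of length
two), `1 + ∑ x_i = 0` (clique) and `1 + ∑ x_i + ∑ y_j + ∑_{non-adjacent} x_i y_j = 0` are of this form, and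
they describe the trilinear hypersurfaces `T = 1`, which are universal by a theorem of the library.
-/

set_option autoImplicit false

open AlgebraicGeometry Pool.Agent.Y116.UV Pool.Agent.Z125.UN Pool.Agent.Q193.LT
  Pool.Agent.Helper3.GU Pool.Agent.Helper59.IP

universe v w w1 w2

namespace Pool.Agent.Results.MP_0fca13_ag.IndependencePolynomials

/-- The conjecture of Tate for the weight complex of `X`, in all degrees: the groups `N^{n,i}(X)` of cycles
modulo homological equivalence are finitely generated, and the cycle class maps
`A^{n,i}(X) → B^{n,i}(X)` are bijective. -/
def Tate {k : Type} [Field k] {E : Type v} [CommRing E] {E' : Type w1} [CommRing E']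
    (C : PairData.{w} k (ℤ × ℤ) E) (N : ℤ × ℤ → Sch k → ModuleCat.{w2} E') (X : Sch k) : Prop :=
  FinGen N X ∧ BijAll C X

/-- **The Tate conjecture and independence polynomials.** See the explanations above. `Frac k` says that
every element of `k` is a quotient of integers. -/
theorem result {k : Type} [Field k] [PerfectField k] (hk : Frac k)
    {E : Type v} [CommRing E] {C : PairData.{w} k (ℤ × ℤ) E}
    (hC : IsWeightPair C) (gC : WeightGen C) (pC : BijAll C (aff k k))
    {E' : Type w1} [CommRing E'] [IsNoetherianRing E'] {N : ℤ × ℤ → Sch k → ModuleCat.{w2} E'}
    (hN : IsTheory N shiftI shiftN shiftI) (gN : FinGenerated N) (pN : FinGen N (aff k k)) :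
    List.TFAE [∀ Y : Sch k, SmoothProj Y → Tate C N Y,
      ∀ X : Sch k, FT True X → Tate C N X,
      ∀ (n : ℕ) (G : SimpleGraph (Fin n)), ThreeCliques G → Tate C N (indS k G),
      ∀ (n : ℕ) (G : SimpleGraph (Fin n)), ThreeCliques G → Tate C N (indH k G),
      ∀ (n : ℕ) (G : SimpleGraph (Fin n)), ThreeCliques G → Tate C N (indT k G),
      ∀ (n : ℕ) (G : SimpleGraph (Fin n)), ThreeCliques G → Tate C N (indHT k G)] :=
  ind_fin gC hC pC gN hN pN hk

end Pool.Agent.Results.MP_0fca13_ag.IndependencePolynomials
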