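import Pool.Agent.Helper85.SJ.Final
import Pool.Agent.Helper85.SJ.Defs

/-!
# Tate classes and places where the monodromy has exactly one nontrivial Jordan block

Let `K` be a finitely generated field with Galois group `Γ` and cyclotomic character `χ`. Let `X i`,
`i ∈ I`, be finitely many smooth projective varieties over `K`, and let `V i` be the dual of a part
(cut out by correspondences) of the cohomology group of `X i` in a degree `w i`, EVEN OR ODD, with
coefficients in the algebraic closure `k` of `ℚ_ℓ`, with the nondegenerate pairing `ω i` given by the
Poincaré pairing, which is symmetric (`sgn = 1`, `w i` even) or alternating (`sgn = -1`), with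
multiplier `χ ^ w i` (`FormPiece`). Let `U` be another smooth projective variety over `K`, and `M` any
Tate twist of a cohomology group of `U`.

Suppose that each `V i` is irreducible under all subgroups of finite index of `Γ`
(`StronglyIrreducible`), and that for each `i` there is a place `v i` of `K` (`OneBlockPlace`) such that

* a generator `γ` of the tame inertia group of `v i` acts on `V i` by a unipotent operator with exactly
  ONE JORDAN BLOCK OF SOME SIZE `m > 1`; there may be ANY NUMBER OF BLOCKS OF SIZE ONE;
* `U` and the other `X i'` have MILDER reduction at `v i`: `(γ - 1) ^ (m - 2) = 0` on `M` and on the
  other `V i'` if the form of `V i` is symmetric, and `(γ - 1) ^ (m - 1) = 0` if it is alternating. By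
  the monodromy theorem, if `m = w i + 1` is the largest possible size then this is automatic, after a
  finite extension of `K`, for all semistable varieties in the degrees `≤ w i - 2` (`≤ w i - 1` if the
  form is alternating), and in all degrees it is true if these varieties have good reduction at `v i`
  and `m ≥ 3`, or the form is alternating;
* (`General`) nothing if `dim (V i) ≥ m + 2`. If `dim (V i) = m` (no other block) then `V i` must not be
  a symmetric power of a representation of dimension two: the eigenvalues of some element of `Γ` are
  not a geometric progression; this is not needed if `m ≤ 2`, or if `m = 3` and the form is symmetric.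
  Moreover `m ≠ 7` for a symmetric form, because of the exceptional group `G₂`. If `dim (V i) = m + 1`
  and the form is symmetric then `m = 3` or `m` is congruent to `1` modulo `4` (for `m = 7` there is the
  spin representation of the group of type `B₃` in dimension eight).

Then the Tate classes (fixed by a subgroup of finite index of `Γ`) in ALL tensor products of the `V i`
with `M`, in any degrees, are exactly the linear combinations of products of

* pairings `ω i` (two variables),
* discriminant forms of the `V i` with a symmetric form (`dim (V i)` variables), the Tate classes in
  `det (V i)`, and
* Tate classes in `M`.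

So the Tate conjecture for all these classes on all products of the `X i` and `U` is reduced to the
classes of the pairings, of the discriminants, and to `U`.

Examples. Let `X` have even dimension `n`, and suppose that its Hodge numbers in the middle degree are
`1` except for `h ^ (n / 2, n / 2)`, which is ARBITRARY: K3 surfaces and K3 type varieties, Calabi-Yau
fourfolds with `h ^ (3, 1) = 1`. If the transcendental part `V` has the monodromy of largest
unipotency at some place then there is exactly one Jordan block of size `n + 1`, and the others have
size one. All degenerations with one ordinary double point in odd dimension have `m = 2` (here one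
recovers Lefschetz pencils).

The theorem needs no Frobenius elements: no purity, no simple eigenvalues, no multiplicative
independence. The starting library contains the case `m = 3` of symmetric forms with good reduction of
the others (`MP_0d42ed_ag.TypeThreeTowers`, `MaximalDegenerations`: the reductive Lie algebras in which
the operator has square zero and rank two on the standard module) and theorems about alternating forms
(`MP_3703a7_ag.SimpleEvenBlock`); the case of one block only (`dim V = m`) is helper hand-in
`MP_640417_ag.MaximallyUnipotentAllWeights`, under other hypotheses. The new points are

* the Lie algebra `L` of skew operators stable under `Γ` which contains the logarithm `e` is the whole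
  orthogonal Lie algebra: the complement `R` of the string of `e` is used. In `L` there is a standard
  triple, irreducibility gives an operator of `L` which maps `R` into the string, and its components
  under the triple are computed one by one (`Full.lean`);
* milder reduction of the others: let `L` be the Lie algebra of all operators on `V i` which come from
  operators on the family which are compatible with all equivariant multilinear maps, and let `𝔞` be
  its ideal of the operators which act on `V i` only. The iterated commutator of `e` with a suitable
  operator of `L` of lowest weight is in `𝔞`, since its component on the others is zero; by the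
  representations of the triple the operator itself is in `𝔞`, and `𝔞` is everything.
-/

set_option autoImplicit false

namespace Pool.Agent.Results.MP_0fca13_ag.OneJordanBlock

open Module Pool.Agent.V1141.WT Pool.Agent.V1141.OF Pool.Agent.V1141.SO Pool.Agent.Helper85.SJ

/-- **Tate classes and places where the monodromy has exactly one nontrivial Jordan block.** -/
theorem result {k : Type} [Field k] [CharZero k] [IsAlgClosed k] {Γ : Type} [Group Γ]
    {χ : Γ →* k} {I : Type} [Fintype I]
    -- the duals of parts of the cohomology groups of `X i` in degree `w i`
    (P : I → FormPiece k χ)
    -- the cohomology of `U`, in a degree, and twisted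
    {M : Type} [AddCommGroup M] [Module k M] [FiniteDimensional k M] (τ : Representation k Γ M)
    (hirr : ∀ i, StronglyIrreducible (P i))
    -- the places
    (hplace : ∀ i, OneBlockPlace P τ i)
    {N : ℕ} (f : MultilinearMap k (fun _ : Fin N => Sum P) M) :
    IsTateClass (act P) τ f ↔ f ∈ Submodule.span k {h | IsProductTimes P τ h} := by
  classical
  refine ⟨fun hf => ?_, fun hf => tate_of_span P τ hf⟩
  refine main_of_full P τ (fun i => ?_) f hf
  obtain ⟨γ, m, c, ⟨hm, hnil, hrank, hne⟩, ⟨hg1, hg2, hg3⟩, hχ, hc, hτ, hoth⟩ := hplace i
  have hnd : ∀ u, (∀ v, (P i).ω u v = 0) → u = 0 := by
    intro u hu
    refine (P i).nondeg u fun v => ?_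
    have h1 := (P i).sym v u
    change (P i).ω v u = _ * (P i).ω u v at h1
    change (P i).ω v u = 0
    rw [h1, hu, mul_zero]
  obtain ⟨D, rfl⟩ : ∃ D, m = D + 1 := ⟨m - 1, by omega⟩
  rw [Nat.add_sub_cancel] at hrank hne
  refine full_lieO (V := fun i => (P i).V) (fun i => (P i).ρ) τ (fun i => (P i).ω) (i := i)
    (γ := γ) (D := D) (c := c) (by omega) ((P i).sgn_eq.imp (fun h => h.1) id) (P i).sym hnd
    (μ := (powMonoidHom (P i).w).comp χ) (P i).twisted ?_ (hirr i) hnil hrank hne ?_ ?_ hoth hτ
    ⟨?_, ?_, ?_⟩
  · change χ γ ^ (P i).w = 1
    rw [hχ, one_pow]
  · intro h
    rcases hc with ⟨-, h1⟩ | ⟨h1, -⟩
    · omega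
    · rw [h] at h1
      norm_num at h1
  · intro h
    rcases hc with ⟨h1, -⟩ | ⟨-, h1⟩
    · rw [h] at h1
      norm_num at h1
    · omega
  · intro h h1
    rcases hg1 h h1 with h2 | ⟨h2, h3⟩
    · exact Or.inl (by omega)
    · exact Or.inr ⟨by omega, h3⟩
  · intro h h1
    rcases hg2 h h1 with h2 | h2
    · exact Or.inl (by omega)
    · exact Or.inr (by omega)
  · intro h h1
    rcases hg3 h h1 with h2 | h2
    · exact Or.inl (by omega)
    · exact Or.inr h2

end Pool.Agent.Results.MP_0fca13_ag.OneJordanBlock
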